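import Pool.Agent.H57.LH.Targets2

/-!
# All first-order reducts, board `lh_modules`, row NAA: no algebraic elements
-/

set_option autoImplicit false

namespace Pool.Agent.H35.LH

open Pool.Agent.H68.BP Pool.Agent.H58.SF Pool.Agent.H53.GC Pool.Agent.H53.NR
open Pool.Agent.H53.GR (Dm Ps)
open Pool.Agent.H57.AR (tp ty tpo pullO Ty OT HomEq El ElD FamR Od GmR INJ lft)
open Pool.Agent.H57.SO (Pal Col vt Bh Sbn fib sigF)
open Pool.Agent.H57.EQ (Cx T_CYF)
open Pool.Agent.H57.LCI (LocalCompletions Pre Realizes)
open Pool.Agent.H44.KR (HB Amg Tyi Rz Rlz Clp LInj Prm TpOn RmL LcN Pl lr blk Fv kv RkI Kd JJ Yc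
  IsTh Can Plf Pls)
open Pool.Agent.H57.LH Function

section

variable {V : Type} {ρ : Sig} {𝔹 : Str ρ V}

theorem tp_of_emb {J : Type} {t g : J → V} (ht : Injective t)
    (hg : IsEmb (pull 𝔹 t) 𝔹 g) : tp 𝔹 g = tp 𝔹 t := by
  refine Prod.ext ?_ ?_
  · funext a b
    exact propext ⟨fun h => congrArg t (hg.1 h), fun h => congrArg g (ht h)⟩
  · funext l z
    exact propext (hg.2 l z).symm

theorem eq_of_tp' {J : Type} {t g : J → V} (h : tp 𝔹 g = tp 𝔹 t) (a b : J) :
    g a = g b ↔ t a = t b := iff_of_eq (congrFun (congrFun (congrArg Prod.fst h) a) b)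

theorem rel_of_tp' {J : Type} {t g : J → V} (h : tp 𝔹 g = tp 𝔹 t) (l : Fin ρ.m)
    (z : Fin (ρ.ar l) → J) : 𝔹 l (fun i => g (z i)) ↔ 𝔹 l (fun i => t (z i)) :=
  iff_of_eq (congrFun (congrFun (congrArg Prod.snd h) l) z)

theorem emb_of_tp {J : Type} {t g : J → V} (ht : Injective t)
    (h : tp 𝔹 g = tp 𝔹 t) : IsEmb (pull 𝔹 t) 𝔹 g :=
  ⟨fun a b hab => ht ((eq_of_tp' h a b).1 hab), fun l z => (rel_of_tp' h l z).symm⟩

theorem tp_comp' {J J' : Type} {t g : J → V} (h : tp 𝔹 g = tp 𝔹 t) (m : J' → J) :
    tp 𝔹 (fun j => g (m j)) = tp 𝔹 (fun j => t (m j)) := by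
  refine Prod.ext ?_ ?_
  · funext a b
    exact propext (eq_of_tp' h _ _)
  · funext l z
    exact propext (rel_of_tp' h l fun i => m (z i))

/-- local completions for families of prescriptions on finite types -/
theorem lc_family (hlc : LocalCompletions 𝔹) (r : ℕ) : ∃ M : ℕ, ∀ (X : Type) [Finite X]
    (K : Type) (J : K → Type) [∀ k, Finite (J k)] (s : (k : K) → J k → X)
    (𝕏 : (k : K) → Str ρ (J k)), (∀ k, Nat.card (J k) ≤ r) →
    (∀ U : Finset X, U.card ≤ M → ∃ f : X → V, ∀ k, (∀ j, s k j ∈ U) →
      IsEmb (𝕏 k) 𝔹 (fun j => f (s k j))) →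
    ∃ f : X → V, ∀ k, IsEmb (𝕏 k) 𝔹 (fun j => f (s k j)) := by
  classical
  obtain ⟨M, hM⟩ := hlc r
  refine ⟨M, ?_⟩
  intro X _ K J _ s 𝕏 hJ hU
  obtain ⟨n, ⟨ε⟩⟩ := Finite.exists_equiv_fin X
  let pr : K → Pre ρ (Fin n) := fun k => ⟨Nat.card (J k),
    (fun i => ε (s k ((Finite.equivFin (J k)).symm i)),
      fun l z => 𝕏 k l (fun i => (Finite.equivFin (J k)).symm (z i)))⟩
  have key : ∀ (f : Fin n → V) (k : K), Realizes 𝔹 f (pr k) ↔
      IsEmb (𝕏 k) 𝔹 (fun j => f (ε (s k j))) := by
    intro f k
    constructor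
    · rintro ⟨h1, h2⟩
      refine ⟨fun j j' hj => ?_, fun l z => ?_⟩
      · apply (Finite.equivFin (J k)).injective
        apply h1
        show f (ε (s k ((Finite.equivFin (J k)).symm (Finite.equivFin (J k) j)))) =
          f (ε (s k ((Finite.equivFin (J k)).symm (Finite.equivFin (J k) j'))))
        rw [Equiv.symm_apply_apply, Equiv.symm_apply_apply]
        exact hj
      · have h3 := h2 l (fun i => Finite.equivFin (J k) (z i))
        have h4 : (𝕏 k l fun i => (Finite.equivFin (J k)).symm (Finite.equivFin (J k) (z i))) ↔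
          𝔹 l fun i =>
            f (ε (s k ((Finite.equivFin (J k)).symm (Finite.equivFin (J k) (z i))))) := h3
        simp only [Equiv.symm_apply_apply] at h4
        exact h4
    · rintro ⟨h1, h2⟩
      refine ⟨fun i i' hi => ?_, fun l z => ?_⟩
      · apply (Finite.equivFin (J k)).symm.injective
        exact h1 hi
      · exact h2 l (fun i => (Finite.equivFin (J k)).symm (z i))
  obtain ⟨f, hf⟩ := hM n (Set.range pr) (by
      rintro _ ⟨k, rfl⟩
      exact hJ k) (by
      intro U hUc
      obtain ⟨f, hf⟩ := hU (U.image ε.symm) (Finset.card_image_le.trans hUc)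
      refine ⟨fun i => f (ε.symm i), ?_⟩
      rintro _ ⟨k, rfl⟩ hk
      rw [key]
      simp only [Equiv.symm_apply_apply]
      refine hf k fun j => ?_
      have h1 : ε (s k ((Finite.equivFin (J k)).symm (Finite.equivFin (J k) j))) ∈ U :=
        hk (Finite.equivFin (J k) j)
      rw [Equiv.symm_apply_apply] at h1
      exact Finset.mem_image.2 ⟨_, h1, Equiv.symm_apply_apply _ _⟩)
  exact ⟨fun x => f (ε x), fun k => (key f k).1 (hf _ ⟨k, rfl⟩)⟩

end

theorem pf_NAA : T_NAA := by
  intro V ρ 𝔹 hH hlc W _ _ x w₀ F hx hb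
  classical
  by_contra hcon
  push Not at hcon
  obtain ⟨b', hb'b, hb't⟩ := hb
  -- the orbit is contained in `F`
  have hO : ∀ y, tp 𝔹 (update x w₀ y) = tp 𝔹 x → y ∈ F := by
    intro y hy
    by_contra h
    exact hcon y h hy
  have := Fintype.ofFinite W
  obtain ⟨S, hS⟩ : ∃ S : Finset V, ∀ v, v ∈ S ↔ (∃ w, w ≠ w₀ ∧ x w = v) ∨
      (tp 𝔹 (update x w₀ v) = tp 𝔹 x ∧ v ≠ x w₀) := by
    refine ⟨((Finset.univ.filter fun w => w ≠ w₀).image x) ∪
      (F.filter fun v => tp 𝔹 (update x w₀ v) = tp 𝔹 x ∧ v ≠ x w₀), fun v => ?_⟩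
    rw [Finset.mem_union, Finset.mem_image, Finset.mem_filter]
    constructor
    · rintro (⟨w, hw, rfl⟩ | ⟨-, h⟩)
      · exact Or.inl ⟨w, (Finset.mem_filter.1 hw).2, rfl⟩
      · exact Or.inr h
    · rintro (⟨w, hw, rfl⟩ | h)
      · exact Or.inl ⟨w, Finset.mem_filter.2 ⟨Finset.mem_univ _, hw⟩, rfl⟩
      · exact Or.inr ⟨hO v h.1, h⟩
  have hbS : x w₀ ∉ S := by
    rw [hS]
    rintro (⟨w, hw, h⟩ | ⟨-, h⟩)
    · exact hx w hw h
    · exact h rfl
  obtain ⟨tup, htn, hts⟩ : ∃ tup : Option S → V, tup none = x w₀ ∧ ∀ v, tup (some v) = v.1 :=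
    ⟨fun o => o.elim (x w₀) fun v => v.1, rfl, fun _ => rfl⟩
  have hti : Injective tup := by
    intro o o' h
    rcases o with _ | v <;> rcases o' with _ | v'
    · rfl
    · rw [htn, hts] at h
      exact absurd (h ▸ v'.2) hbS
    · rw [htn, hts] at h
      exact absurd (h ▸ v.2) hbS
    · rw [hts, hts] at h
      rw [Subtype.ext h]
  -- the map of the places of `x`
  obtain ⟨pl, hpl0, hpl1⟩ : ∃ pl : W → Option S, pl w₀ = none ∧
      ∀ w, w ≠ w₀ → ∃ v, pl w = some v ∧ v.1 = x w := by
    refine ⟨fun w => if h : w = w₀ then none else some ⟨x w, (hS _).2 (Or.inl ⟨w, h, rfl⟩)⟩,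
      dif_pos rfl, fun w hw => ⟨_, dif_neg hw, rfl⟩⟩
  have htx : (fun w => tup (pl w)) = x := by
    funext w
    by_cases hw : w = w₀
    · rw [hw, hpl0, htn]
    · obtain ⟨v, h1, h2⟩ := hpl1 w hw
      rw [h1, hts, h2]
  -- rigidity
  have rig : ∀ g g' : Option S → V, tp 𝔹 g = tp 𝔹 tup → tp 𝔹 g' = tp 𝔹 tup →
      (∀ v, g (some v) = g' (some v)) → g none = g' none := by
    intro g g' hg hg' hgg
    by_contra hne
    obtain ⟨x'', h1, h2⟩ := hH (Option (Option S)) (Set.range some)
      (fun o => o.elim (g' none) g) (fun o => o.elim (x w₀) tup) (by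
      refine ⟨?_, ?_⟩
      · rintro _ ⟨a, rfl⟩ _ ⟨b, rfl⟩
        exact eq_of_tp' hg a b
      · intro l z hz
        choose z' hz' using hz
        have h3 : z = fun i => some (z' i) := funext fun i => (hz' i).symm
        rw [h3]
        exact rel_of_tp' hg l z')
    have h3 : ∀ o, x'' (some o) = tup o := fun o => h2 (some o) ⟨o, rfl⟩
    have h4 : ∀ o, x'' none ≠ tup o := by
      intro o ho
      rw [← h3 o] at ho
      have h5 : g' none = g o := (eq_of_tp' h1 none (some o)).1 ho
      rcases o with _ | v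
      · exact hne h5.symm
      · rw [hgg v] at h5
        have h6 := (eq_of_tp' hg' none (some v)).1 h5
        exact absurd (hti h6) (by simp)
    -- the new element is in the orbit
    obtain ⟨m, hm0, hm1⟩ : ∃ m : W → Option (Option S), m w₀ = none ∧
        ∀ w, w ≠ w₀ → m w = some (pl w) :=
      ⟨fun w => if w = w₀ then none else some (pl w), if_pos rfl, fun w hw => if_neg hw⟩
    have h5 : (fun w => x'' (m w)) = update x w₀ (x'' none) := by
      funext w
      by_cases hw : w = w₀
      · rw [hw, hm0, update_self]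
      · rw [hm1 w hw, h3, update_of_ne hw]
        exact congrFun htx w
    have h6 : (fun w => (m w).elim (g' none) g) = fun w => g' (pl w) := by
      funext w
      by_cases hw : w = w₀
      · rw [hw, hm0, hpl0]
        rfl
      · obtain ⟨v, h7, -⟩ := hpl1 w hw
        rw [hm1 w hw, h7]
        exact hgg v
    have h7 : tp 𝔹 (update x w₀ (x'' none)) = tp 𝔹 x := by
      rw [← h5, tp_comp' h1 m, h6, tp_comp' hg' pl, htx]
    by_cases h8 : x'' none = x w₀
    · exact h4 none (h8.trans htn.symm)
    · exact h4 (some ⟨x'' none, (hS _).2 (Or.inr ⟨h7, h8⟩)⟩)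
        (hts ⟨x'' none, (hS _).2 (Or.inr ⟨h7, h8⟩)⟩).symm
  -- the copy with `b'`
  obtain ⟨tup', htt, htn'⟩ : ∃ tup' : Option S → V, tp 𝔹 tup' = tp 𝔹 tup ∧ tup' none = b' := by
    obtain ⟨x', h1, h2⟩ := hH (Option S) {none} tup (fun _ => b') (by
      refine ⟨fun a ha b hb => ?_, fun l z hz => ?_⟩
      · rw [ha, hb]
        exact ⟨fun _ => rfl, fun _ => rfl⟩
      · have h3 : (fun i => tup (z i)) = fun _ => x w₀ := by
          funext i
          rw [hz i, htn]
        rw [h3]
        exact (iff_of_eq (congrFun hb't l)).symm)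
    exact ⟨x', h1, h2 none rfl⟩
  -- `S` is nonempty
  have hSne : Nonempty S := by
    by_contra hemp
    have hemp' : ∀ v, v ∉ S := fun v hv => hemp ⟨⟨v, hv⟩⟩
    have hW : ∀ w, w = w₀ := by
      intro w
      by_contra hw
      exact hemp' (x w) ((hS _).2 (Or.inl ⟨w, hw, rfl⟩))
    refine hemp' b' ((hS _).2 (Or.inr ⟨?_, hb'b⟩))
    have h1 : update x w₀ b' = fun _ => b' := by
      funext w
      rw [hW w, update_self]
    have h2 : x = fun _ => x w₀ := by
      funext w
      rw [hW w]
    rw [h1, h2]
    refine Prod.ext ?_ ?_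
    · funext a b
      exact propext ⟨fun _ => rfl, fun _ => rfl⟩
    · funext l z
      exact congrFun hb't l
  -- the prescriptions
  obtain ⟨M, hM⟩ := lc_family hlc (Nat.card (Option S) + 2)
  let X : Type := (Fin (M + 1) × S) ⊕ Fin (M + 2)
  let K : Type := (Fin (M + 1) × Bool) ⊕ Unit
  let J : K → Type := Sum.elim (fun _ => Option S) (fun _ => Fin 2)
  have hJf : ∀ k, Finite (J k) := by
    rintro (k | k)
    · exact inferInstanceAs (Finite (Option S))
    · exact inferInstanceAs (Finite (Fin 2))
  let s : (k : K) → J k → X := fun k => match k with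
    | Sum.inl (j, false) => fun o : Option S =>
        o.elim (Sum.inr j.castSucc) fun v => Sum.inl (j, v)
    | Sum.inl (j, true) => fun o : Option S => o.elim (Sum.inr j.succ) fun v => Sum.inl (j, v)
    | Sum.inr _ => fun i : Fin 2 => if i = 0 then Sum.inr 0 else Sum.inr (Fin.last (M + 1))
  let 𝕏 : (k : K) → Str ρ (J k) := fun k => match k with
    | Sum.inl _ => pull 𝔹 tup
    | Sum.inr _ => pull 𝔹 (fun i : Fin 2 => if i = 0 then x w₀ else b')
  obtain ⟨f, hf⟩ := hM X K J s 𝕏 (by
    rintro (k | k)
    · exact Nat.le_add_right _ _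
    · show Nat.card (Fin 2) ≤ _
      rw [Nat.card_eq_fintype_card, Fintype.card_fin]
      exact Nat.le_add_left _ _) (by
    intro U hU
    -- a free level
    obtain ⟨j0, hj0⟩ : ∃ j0 : Fin (M + 1), ∀ v : S, (Sum.inl (j0, v) : X) ∉ U := by
      by_contra h
      push Not at h
      choose v hv using h
      have h1 : (Finset.univ.image fun j : Fin (M + 1) => (Sum.inl (j, v j) : X)).card ≤ M :=
        (Finset.card_le_card (by
          intro y hy
          obtain ⟨j, -, rfl⟩ := Finset.mem_image.1 hy
          exact hv j)).trans hU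
      rw [Finset.card_image_of_injective, Finset.card_univ, Fintype.card_fin] at h1
      · omega
      · intro j j' h
        exact congrArg Prod.fst (Sum.inl_injective h)
    have hemb : IsEmb (pull 𝔹 tup) 𝔹 tup := emb_of_tp hti rfl
    have hemb' : IsEmb (pull 𝔹 tup) 𝔹 tup' := emb_of_tp hti htt
    refine ⟨Sum.elim (fun p => if p.1 < j0 then tup (some p.2) else tup' (some p.2))
      (fun i => if (i : ℕ) ≤ (j0 : ℕ) then x w₀ else b'), ?_⟩
    rintro (⟨j, c⟩ | k) hk
    · have hjne : j ≠ j0 := by
        rintro rfl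
        obtain ⟨v⟩ := hSne
        cases c with
        | false => exact hj0 v (hk (some v))
        | true => exact hj0 v (hk (some v))
      rcases lt_or_gt_of_ne hjne with hlt | hlt
      · have h1 : (fun o : Option S => Sum.elim (fun p : Fin (M + 1) × S =>
            if p.1 < j0 then tup (some p.2) else tup' (some p.2))
            (fun i : Fin (M + 2) => if (i : ℕ) ≤ (j0 : ℕ) then x w₀ else b')
            (s (Sum.inl (j, c)) o)) = tup := by
          funext o
          rcases o with _ | v
          · cases c with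
            | false =>
              show (if ((j.castSucc : Fin (M + 2)) : ℕ) ≤ (j0 : ℕ) then x w₀ else b') = tup none
              rw [if_pos (by
                have : (j : ℕ) < j0 := hlt
                simp only [Fin.val_castSucc]
                omega), htn]
            | true =>
              show (if ((j.succ : Fin (M + 2)) : ℕ) ≤ (j0 : ℕ) then x w₀ else b') = tup none
              rw [if_pos (by
                have : (j : ℕ) < j0 := hlt
                simp only [Fin.val_succ]
                omega), htn]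
          · cases c with
            | false =>
              show (if j < j0 then tup (some v) else tup' (some v)) = tup (some v)
              rw [if_pos hlt]
            | true =>
              show (if j < j0 then tup (some v) else tup' (some v)) = tup (some v)
              rw [if_pos hlt]
        show IsEmb (pull 𝔹 tup) 𝔹 (fun o : Option S => Sum.elim (fun p : Fin (M + 1) × S =>
            if p.1 < j0 then tup (some p.2) else tup' (some p.2))
            (fun i : Fin (M + 2) => if (i : ℕ) ≤ (j0 : ℕ) then x w₀ else b')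
            (s (Sum.inl (j, c)) o))
        rw [h1]
        exact hemb
      · have h1 : (fun o : Option S => Sum.elim (fun p : Fin (M + 1) × S =>
            if p.1 < j0 then tup (some p.2) else tup' (some p.2))
            (fun i : Fin (M + 2) => if (i : ℕ) ≤ (j0 : ℕ) then x w₀ else b')
            (s (Sum.inl (j, c)) o)) = tup' := by
          funext o
          rcases o with _ | v
          · cases c with
            | false =>
              show (if ((j.castSucc : Fin (M + 2)) : ℕ) ≤ (j0 : ℕ) then x w₀ else b') =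
                tup' none
              rw [if_neg (by
                have : (j0 : ℕ) < j := hlt
                simp only [Fin.val_castSucc]
                omega), htn']
            | true =>
              show (if ((j.succ : Fin (M + 2)) : ℕ) ≤ (j0 : ℕ) then x w₀ else b') = tup' none
              rw [if_neg (by
                have : (j0 : ℕ) < j := hlt
                simp only [Fin.val_succ]
                omega), htn']
          · cases c with
            | false =>
              show (if j < j0 then tup (some v) else tup' (some v)) = tup' (some v)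
              rw [if_neg (not_lt_of_gt hlt)]
            | true =>
              show (if j < j0 then tup (some v) else tup' (some v)) = tup' (some v)
              rw [if_neg (not_lt_of_gt hlt)]
        show IsEmb (pull 𝔹 tup) 𝔹 (fun o : Option S => Sum.elim (fun p : Fin (M + 1) × S =>
            if p.1 < j0 then tup (some p.2) else tup' (some p.2))
            (fun i : Fin (M + 2) => if (i : ℕ) ≤ (j0 : ℕ) then x w₀ else b')
            (s (Sum.inl (j, c)) o))
        rw [h1]
        exact hemb'
    · have h1 : (fun i : Fin 2 => Sum.elim (fun p : Fin (M + 1) × S =>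
            if p.1 < j0 then tup (some p.2) else tup' (some p.2))
            (fun i : Fin (M + 2) => if (i : ℕ) ≤ (j0 : ℕ) then x w₀ else b')
            (s (Sum.inr k) i)) = fun i : Fin 2 => if i = 0 then x w₀ else b' := by
        funext i
        by_cases hi : i = 0
        · subst hi
          show (if ((0 : Fin (M + 2)) : ℕ) ≤ (j0 : ℕ) then x w₀ else b') = x w₀
          rw [if_pos (by simp)]
        · have h2 : s (Sum.inr k) i = Sum.inr (Fin.last (M + 1)) := if_neg hi
          rw [h2, if_neg hi]
          show (if ((Fin.last (M + 1) : Fin (M + 2)) : ℕ) ≤ (j0 : ℕ) then x w₀ else b') = b'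
          rw [if_neg (by
            have := j0.2
            simp only [Fin.val_last]
            omega)]
      show IsEmb (pull 𝔹 (fun i : Fin 2 => if i = 0 then x w₀ else b')) 𝔹
        (fun i : Fin 2 => Sum.elim (fun p : Fin (M + 1) × S =>
            if p.1 < j0 then tup (some p.2) else tup' (some p.2))
            (fun i : Fin (M + 2) => if (i : ℕ) ≤ (j0 : ℕ) then x w₀ else b')
            (s (Sum.inr k) i))
      rw [h1]
      refine emb_of_tp ?_ rfl
      intro i i' h
      fin_cases i <;> fin_cases i'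
      · rfl
      · exact absurd h.symm hb'b
      · exact absurd h hb'b
      · rfl)
  -- a global map
  have hstep : ∀ j : Fin (M + 1), f (Sum.inr j.castSucc) = f (Sum.inr j.succ) := by
    intro j
    have h1 : tp 𝔹 (fun o : Option S => f (s (Sum.inl (j, false)) o)) = tp 𝔹 tup :=
      tp_of_emb hti (hf (Sum.inl (j, false)))
    have h2 : tp 𝔹 (fun o : Option S => f (s (Sum.inl (j, true)) o)) = tp 𝔹 tup :=
      tp_of_emb hti (hf (Sum.inl (j, true)))
    exact rig _ _ h1 h2 fun v => rfl
  have hall : ∀ i : ℕ, ∀ hi : i < M + 2, f (Sum.inr ⟨i, hi⟩) = f (Sum.inr 0) := by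
    intro i
    induction i with
    | zero => intro hi; rfl
    | succ i ih =>
      intro hi
      rw [← ih (by omega)]
      exact (hstep ⟨i, by omega⟩).symm
  have hlast := hf (Sum.inr ())
  have h3 : f (s (Sum.inr ()) (0 : Fin 2)) = f (s (Sum.inr ()) (1 : Fin 2)) :=
    (hall (M + 1) (by omega)).symm
  have h4 : (0 : Fin 2) = 1 := hlast.1 h3
  exact absurd h4 (by decide)

end Pool.Agent.H35.LH
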